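import Pool.Agent.helper40.FI.SpecLA

/-! # Project fi (MP_baa4d7_al), row LCO: coefficients and values of integer combinations of characters -/

set_option autoImplicit false

namespace Pool.Agent.FI

open Finset Pool.Agent.GR

noncomputable section

theorem LCO : LCO_stmt := by
  intro p M D _ _ f hM hp hf
  classical
  obtain ⟨m, hm⟩ := hf
  have : Fintype (D →* ℂˣ) := Fintype.ofFinite _
  have hm' : ∀ u, f u = ∑ l : D →* ℂˣ, (m l : ℂ) * lv l u := fun u => by
    rw [hm u, finsum_eq_sum_of_fintype]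
  have hint : ∀ n : ℤ, IsIntegral ℤ (n : ℂ) := fun n => by
    have := isIntegral_algebraMap (R := ℤ) (A := ℂ) (x := n)
    simpa using this
  refine ⟨fun l' => ⟨m l', ?_⟩, fun u => ?_, fun u => ?_⟩
  · have h1 : ∑ u, f u * lv l' u⁻¹ = ∑ l : D →* ℂˣ, (m l : ℂ) * ∑ u, lv l u * lv l' u⁻¹ := by
      simp_rw [hm', Finset.sum_mul, Finset.mul_sum]
      rw [Finset.sum_comm]
      refine Finset.sum_congr rfl fun l _ => Finset.sum_congr rfl fun u _ => by ring
    rw [h1]
    simp_rw [sum_lv_lv]
    simp only [mul_ite, mul_zero, Finset.sum_ite_eq', Finset.mem_univ, if_true]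
    ring
  · rw [hm' u]
    exact IsIntegral.sum _ fun l _ => (hint _).mul (lv_int l u)
  · have h1 : f u - f 1 = ∑ l : D →* ℂˣ, (m l : ℂ) * (lv l u - 1) := by
      rw [hm' u, hm' 1, ← Finset.sum_sub_distrib]
      refine Finset.sum_congr rfl fun l _ => ?_
      rw [lv_one]
      ring
    rw [h1]
    exact InM.sum hM _ fun l _ => InM.mul_left hM (IntAt.intCast hM _) (lv_modM hM hp l u)

end

end Pool.Agent.FI
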